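import Pool.Agent.H242.GX.Stm

open Set Filter Topology
open scoped ContDiff
open Pool.Agent.H242.GX

namespace Pool.Agent.H10.GX

/-- formula for the inner product -/
lemma ip_Psi (p : ℝ → ℝ) (θ y α : ℝ) :
    ip (Psi p θ y) (nu α) = (p θ + y) * Real.cos (α - θ) + deriv p θ * Real.sin (α - θ) := by
  simp only [ip, Psi, gam, nu, e, Complex.add_re, Complex.add_im, Complex.real_smul,
    Complex.mul_re, Complex.mul_im, Complex.ofReal_re, Complex.ofReal_im, Real.cos_sub, Real.sin_sub]
  ring

/-- the positive case -/
lemma pos_of (p : ℝ → ℝ) (hp : Supp p) (θ y : ℝ) (h : ∀ α, 0 < p α + deriv (deriv p) α + y)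
    (β : ℝ) (hβ : β ≠ 0) (hb : |β| ≤ Real.pi) :
    0 < p (θ + β) + y - ((p θ + y) * Real.cos β + deriv p θ * Real.sin β) := by
  have h1 : Differentiable ℝ p := hp.smooth.differentiable (by simp)
  have h2 : ContDiff ℝ ∞ (deriv p) := by
    have := hp.smooth
    exact (contDiff_infty_iff_deriv.1 this).2
  have h3 : Differentiable ℝ (deriv p) := h2.differentiable (by simp)
  set α := θ + β with hα
  -- D and its derivative
  have hD : ∀ u, HasDerivAt (fun u => p u + y - ((p θ + y) * Real.cos (u - θ) + deriv p θ * Real.sin (u - θ)))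
      (deriv p u - ((p θ + y) * (-Real.sin (u - θ)) + deriv p θ * Real.cos (u - θ))) u := by
    intro u
    have ha : HasDerivAt (fun u : ℝ => u - θ) 1 u := (hasDerivAt_id u).sub_const θ
    have hc : HasDerivAt (fun u : ℝ => Real.cos (u - θ)) (-Real.sin (u - θ)) u := by
      simpa using ha.cos
    have hs : HasDerivAt (fun u : ℝ => Real.sin (u - θ)) (Real.cos (u - θ)) u := by
      simpa using ha.sin
    exact ((h1 u).hasDerivAt.add_const y).sub ((hc.const_mul _).add (hs.const_mul _))
  have hD' : ∀ u, HasDerivAt (fun u => deriv p u - ((p θ + y) * (-Real.sin (u - θ)) + deriv p θ * Real.cos (u - θ)))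
      (deriv (deriv p) u - ((p θ + y) * (-Real.cos (u - θ)) + deriv p θ * (-Real.sin (u - θ)))) u := by
    intro u
    have ha : HasDerivAt (fun u : ℝ => u - θ) 1 u := (hasDerivAt_id u).sub_const θ
    have hc : HasDerivAt (fun u : ℝ => Real.cos (u - θ)) (-Real.sin (u - θ)) u := by
      simpa using ha.cos
    have hs : HasDerivAt (fun u : ℝ => Real.sin (u - θ)) (Real.cos (u - θ)) u := by
      simpa using ha.sin
    exact ((h3 u).hasDerivAt).sub ((hs.neg.const_mul _).add (hc.const_mul _))
  set D : ℝ → ℝ := fun u => p u + y - ((p θ + y) * Real.cos (u - θ) + deriv p θ * Real.sin (u - θ)) with hDdef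
  set D1 : ℝ → ℝ := fun u => deriv p u - ((p θ + y) * (-Real.sin (u - θ)) + deriv p θ * Real.cos (u - θ)) with hD1def
  set G : ℝ → ℝ := fun u => D1 u * Real.sin (α - u) + D u * Real.cos (α - u) with hGdef
  have hG : ∀ u, HasDerivAt G ((p u + deriv (deriv p) u + y) * Real.sin (α - u)) u := by
    intro u
    have ha : HasDerivAt (fun u : ℝ => α - u) (-1) u := (hasDerivAt_id u).const_sub α
    have hc : HasDerivAt (fun u : ℝ => Real.cos (α - u)) (Real.sin (α - u)) u := by
      simpa using ha.cos
    have hs : HasDerivAt (fun u : ℝ => Real.sin (α - u)) (-Real.cos (α - u)) u := by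
      simpa using ha.sin
    have := ((hD' u).mul hs).add ((hD u).mul hc)
    refine this.congr_deriv ?_
    simp only [hDdef, hD1def]
    ring
  have hcont : Continuous G := by
    rw [continuous_iff_continuousAt]
    intro u
    exact (hG u).continuousAt
  have hG0 : G θ = 0 := by
    simp [hGdef, hDdef, hD1def]
  have hGα : G α = p α + y - ((p θ + y) * Real.cos β + deriv p θ * Real.sin β) := by
    simp [hGdef, hDdef, hD1def, hα]
  rw [← hGα, ← hG0]
  rcases lt_or_gt_of_ne hβ with hneg | hpos
  · -- β < 0
    have hanti : StrictAntiOn G (Icc α θ) := by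
      apply strictAntiOn_of_deriv_neg (convex_Icc _ _) hcont.continuousOn
      intro u hu
      rw [interior_Icc] at hu
      rw [(hG u).deriv]
      have hs : Real.sin (α - u) < 0 := by
        apply Real.sin_neg_of_neg_of_neg_pi_lt
        · linarith [hu.1]
        · have := (abs_le.1 hb).1
          linarith [hu.2]
      have := h u
      nlinarith
    exact hanti ⟨le_refl _, by linarith⟩ ⟨by linarith, le_refl _⟩ (by linarith)
  · have hmono : StrictMonoOn G (Icc θ α) := by
      apply strictMonoOn_of_deriv_pos (convex_Icc _ _) hcont.continuousOn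
      intro u hu
      rw [interior_Icc] at hu
      rw [(hG u).deriv]
      have hs : 0 < Real.sin (α - u) := by
        apply Real.sin_pos_of_pos_of_lt_pi
        · linarith [hu.2]
        · have := (abs_le.1 hb).2
          linarith [hu.1]
      have := h u
      positivity
    exact hmono ⟨le_refl _, by linarith⟩ ⟨by linarith, le_refl _⟩ (by linarith)

theorem gx_KEY : S_KEY := by
  intro p hp θ y h α
  -- reduce modulo 2π
  obtain ⟨k, hk⟩ : ∃ k : ℤ, |α - θ - k * (2 * Real.pi)| ≤ Real.pi := by
    have hpi := Real.pi_pos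
    refine ⟨round ((α - θ) / (2 * Real.pi)), ?_⟩
    have h1 := abs_sub_round ((α - θ) / (2 * Real.pi))
    have h2 : α - θ - (round ((α - θ) / (2 * Real.pi)) : ℝ) * (2 * Real.pi) =
        ((α - θ) / (2 * Real.pi) - round ((α - θ) / (2 * Real.pi))) * (2 * Real.pi) := by
      field_simp
    rw [h2, abs_mul, abs_of_pos (by positivity : (0 : ℝ) < 2 * Real.pi)]
    nlinarith
  set β := α - θ - k * (2 * Real.pi) with hβ
  have hper : ∀ x, p (x + k * (2 * Real.pi)) = p x := by
    have : Function.Periodic p (2 * Real.pi) := hp.per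
    intro x
    exact (this.int_mul k) x
  have hα : α = θ + β + k * (2 * Real.pi) := by rw [hβ]; ring
  have hc : Real.cos (α - θ) = Real.cos β := by
    have : α - θ = β + k * (2 * Real.pi) := by rw [hβ]; ring
    rw [this, Real.cos_add_int_mul_two_pi]
  have hs : Real.sin (α - θ) = Real.sin β := by
    have : α - θ = β + k * (2 * Real.pi) := by rw [hβ]; ring
    rw [this, Real.sin_add_int_mul_two_pi]
  have hpα : p α = p (θ + β) := by rw [hα, hper]
  rw [ip_Psi, hc, hs, hpα]
  by_cases h0 : β = 0
  · constructor
    · rw [h0]; simp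
    · intro _
      exact ⟨k, by rw [hα, h0]; ring⟩
  · have := pos_of p hp θ y h β h0 hk
    constructor
    · linarith
    · intro heq
      linarith

end Pool.Agent.H10.GX
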